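import Mathlib
import Pool.Agent.Q41.CC.Defs
import Pool.Agent.Q41.CC.Diag

set_option autoImplicit false
set_option synthInstance.maxHeartbeats 400000

universe u

namespace Pool.Agent.Results.MP_8292e8_an.SquareNotConvexCyclic

open Q41.CC

theorem real_hb (c : ℝ) (hc : c ≠ 0) : ∃ n : ℕ, 0 < RCLike.re (c * (-1 : ℝ) ^ n) := by
  rcases lt_or_gt_of_ne hc with h | h
  · exact ⟨1, by simpa using h⟩
  · exact ⟨0, by simpa using h⟩

theorem real_hc (s : ℝ) : ∃ w : ℝ, w ≠ 0 ∧ ∀ (n : ℕ) (r : ℝ),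
    0 ≤ RCLike.re (w * (((-1 : ℝ) * ((r : ℝ) : ℝ)) ^ (2 * n) * s)) := by
  by_cases hs : s = 0
  · exact ⟨1, one_ne_zero, fun n r => by simp [hs]⟩
  · refine ⟨s, hs, fun n r => ?_⟩
    have h : s * ((-1 * r) ^ (2 * n) * s) = (s * (-1 * r) ^ n) ^ 2 := by
      rw [mul_comm 2 n, pow_mul]
      ring
    change 0 ≤ s * ((-1 * r) ^ (2 * n) * s)
    rw [h]
    positivity

theorem complex_hb (c : ℂ) (hc : c ≠ 0) : ∃ n : ℕ, 0 < RCLike.re (c * Complex.I ^ n) := by
  have h3 : Complex.I ^ 3 = -Complex.I := by rw [pow_succ, Complex.I_sq]; ring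
  rcases lt_trichotomy c.re 0 with h | h | h
  · exact ⟨2, by simpa [Complex.I_sq] using h⟩
  · rcases lt_trichotomy c.im 0 with h' | h' | h'
    · exact ⟨1, by simpa using h'⟩
    · exact absurd (Complex.ext h h') hc
    · exact ⟨3, by simpa [h3] using h'⟩
  · exact ⟨0, by simpa using h⟩

theorem complex_hc (s : ℂ) : ∃ w : ℂ, w ≠ 0 ∧ ∀ (n : ℕ) (r : ℝ),
    0 ≤ RCLike.re (w * ((Complex.I * ((r : ℝ) : ℂ)) ^ (2 * n) * s)) := by
  by_cases hs : s = 0
  · exact ⟨1, one_ne_zero, fun n r => by simp [hs]⟩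
  · refine ⟨Complex.I * (starRingEnd ℂ s), mul_ne_zero Complex.I_ne_zero
      ((map_ne_zero (starRingEnd ℂ)).2 hs), fun n r => ?_⟩
    have h : Complex.I * (starRingEnd ℂ s) * ((Complex.I * ((r : ℝ) : ℂ)) ^ (2 * n) * s) =
        (((-(r ^ 2)) ^ n * Complex.normSq s : ℝ) : ℂ) * Complex.I := by
      have h1 : (Complex.I * ((r : ℝ) : ℂ)) ^ (2 * n) = (((-(r ^ 2)) ^ n : ℝ) : ℂ) := by
        rw [pow_mul, mul_pow, Complex.I_sq]
        push_cast
        ring
      rw [h1]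
      have h2 : (starRingEnd ℂ s) * s = (Complex.normSq s : ℂ) := by
        rw [mul_comm, Complex.mul_conj]
      push_cast
      linear_combination (Complex.I * (-((r : ℂ) ^ 2)) ^ n) * h2
    rw [h]
    change 0 ≤ ((((-(r ^ 2)) ^ n * Complex.normSq s : ℝ) : ℂ) * Complex.I).re
    rw [Complex.re_ofReal_mul, Complex.I_re, mul_zero]

/-- Every nonzero separable real or complex Banach space carries a bounded linear convex-cyclic
operator `S` whose square is not convex-cyclic. -/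
theorem result :
    (∀ (X : Type u) [NormedAddCommGroup X] [NormedSpace ℝ X] [CompleteSpace X]
      [TopologicalSpace.SeparableSpace X] [Nontrivial X],
      ∃ S : X →L[ℝ] X, IsConvexCyclic S ∧ ¬ IsConvexCyclic (S ∘ S)) ∧
    (∀ (X : Type u) [NormedAddCommGroup X] [NormedSpace ℂ X] [CompleteSpace X]
      [TopologicalSpace.SeparableSpace X] [Nontrivial X],
      ∃ S : X →L[ℂ] X, IsConvexCyclic S ∧ ¬ IsConvexCyclic (S ∘ S)) :=
  ⟨fun _ => main (𝕜 := ℝ) (ι := -1) (by norm_num) real_hb real_hc,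
    fun _ => main (𝕜 := ℂ) (ι := Complex.I) Complex.I_pow_four complex_hb complex_hc⟩

end Pool.Agent.Results.MP_8292e8_an.SquareNotConvexCyclic
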